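import Pool.Agent.H45.BanachLattice.Proof

/-!
# Semiprojective separable Banach lattices are `1⁺`-projective

This answers Q1 of `MP_d0fcce_an` affirmatively. The definitions are in
`Pool/Agent/H45/BanachLattice/Defs.lean`, the proof is in `Pool/Agent/H45/BanachLattice/Proof.lean`.
-/

open TopologicalSpace
open Pool.Agent.H45.BanachLattice

namespace Pool.Agent.Results.MP_d0fcce_an.SemiprojectiveIsProjective

universe u v

/-- **Main theorem**: every semiprojective separable Banach lattice is `1⁺`-projective. -/
theorem result (A : Type u) [NormedAddCommGroup A] [Lattice A] [NormedSpace ℝ A]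
    [IsBanachLattice A] [SeparableSpace A] (hA : Semiprojective.{u, v} A) :
    OnePlusProjective.{u, v} A :=
  main A hA

end Pool.Agent.Results.MP_d0fcce_an.SemiprojectiveIsProjective
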